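import Pool.Agent.H71.AL.Targets

/-!
# Board alv_modules, row RAT: sequences of monotone maps of the rational numbers
-/

set_option autoImplicit false

open Set
open Pool.Agent.AL

namespace Pool.Agent.H86.ALV

/-- countable dense linear orders without end points -/
theorem exists_iso {α : Type} [Countable α] [Nonempty α] (r : α → α → Prop)
    (irr : ∀ a, ¬ r a a) (tot : ∀ a b, a ≠ b → r a b ∨ r b a)
    (tr : ∀ a b c, r a b → r b c → r a c) (den : ∀ a b, r a b → ∃ c, r a c ∧ r c b)
    (top : ∀ a, ∃ b, r a b) (bot : ∀ a, ∃ b, r b a) :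
    ∃ e : α → ℚ, Function.Bijective e ∧ ∀ a b, r a b ↔ e a < e b := by
  classical
  have : IsStrictTotalOrder α r :=
    { trichotomous := fun a b h1 h2 => by
        by_contra h
        rcases tot a b h with h3 | h3
        · exact h1 h3
        · exact h2 h3
      irrefl := irr
      trans := tr }
  let _ : LinearOrder α := linearOrderOfSTO r
  have : DenselyOrdered α := ⟨fun a b h => den a b h⟩
  have : NoMaxOrder α := ⟨fun a => top a⟩
  have : NoMinOrder α := ⟨fun a => bot a⟩
  obtain ⟨e⟩ := Order.iso_of_countable_dense α ℚ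
  exact ⟨e, e.bijective, fun a b => (e.lt_iff_lt (x := a) (y := b)).symm⟩

/-- the coding relation -/
def Rel : Set (Y × ((ℕ → ℚ → ℚ) × (ℕ → ℚ))) :=
  {p | ((∀ m n, p.2.2 m = p.2.2 n → m = n) ∧ (∀ q, ∃ m, p.2.2 m = q)) ∧
    (∀ m n, p.1.1 m n = true ↔ p.2.2 m < p.2.2 n) ∧
    (∀ k m q j, p.2.2 m = q → p.1.2 k m = j → p.2.2 j = p.2.1 k q) ∧
    ∀ k, (∀ a b : ℚ, a ≤ b → p.2.1 k a ≤ p.2.1 k b) ∨ ∀ a b : ℚ, a ≤ b → p.2.1 k b ≤ p.2.1 k a}

/-- the domain -/
def Dom : Set Y :=
  {y | ((∀ a, ¬ y.1 a a = true) ∧ (∀ a b, a ≠ b → y.1 a b = true ∨ y.1 b a = true) ∧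
      ∀ a b c, y.1 a b = true → y.1 b c = true → y.1 a c = true) ∧
    ((∀ a b, y.1 a b = true → ∃ c, y.1 a c = true ∧ y.1 c b = true) ∧
      (∀ a, ∃ b, y.1 a b = true) ∧ ∀ a, ∃ b, y.1 b a = true) ∧
    ∀ k, (∀ a b c d, y.1 a b = true → y.2 k a = c → y.2 k b = d → c = d ∨ y.1 c d = true) ∨
      ∀ a b c d, y.1 a b = true → y.2 k a = c → y.2 k b = d → c = d ∨ y.1 d c = true}

theorem dom_meas : MeasurableSet Dom := by
  have h1 : ∀ a b : ℕ, Measurable fun y : Y => y.1 a b = true := by
    intro a b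
    have h : Measurable fun y : Y => y.1 a b :=
      (measurable_pi_apply b).comp ((measurable_pi_apply a).comp measurable_fst)
    exact measurableSet_setOfPred.1 (h (measurableSet_singleton true))
  have h2 : ∀ k a c : ℕ, Measurable fun y : Y => y.2 k a = c := by
    intro k a c
    have h : Measurable fun y : Y => y.2 k a :=
      (measurable_pi_apply a).comp ((measurable_pi_apply k).comp measurable_snd)
    exact measurableSet_setOfPred.1 (h (measurableSet_singleton c))
  refine measurableSet_setOfPred.2 ?_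
  refine Measurable.and (Measurable.and ?_ (Measurable.and ?_ ?_))
    (Measurable.and (Measurable.and ?_ (Measurable.and ?_ ?_)) ?_)
  · exact Measurable.forall fun a => (h1 a a).not
  · exact Measurable.forall fun a => Measurable.forall fun b =>
      measurable_const.imp ((h1 a b).or (h1 b a))
  · exact Measurable.forall fun a => Measurable.forall fun b => Measurable.forall fun c =>
      (h1 a b).imp ((h1 b c).imp (h1 a c))
  · exact Measurable.forall fun a => Measurable.forall fun b =>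
      (h1 a b).imp (Measurable.exists fun c => (h1 a c).and (h1 c b))
  · exact Measurable.forall fun a => Measurable.exists fun b => h1 a b
  · exact Measurable.forall fun a => Measurable.exists fun b => h1 b a
  · refine Measurable.forall fun k => Measurable.or ?_ ?_
    · exact Measurable.forall fun a => Measurable.forall fun b => Measurable.forall fun c =>
        Measurable.forall fun d => (h1 a b).imp ((h2 k a c).imp ((h2 k b d).imp
          (measurable_const.or (h1 c d))))
    · exact Measurable.forall fun a => Measurable.forall fun b => Measurable.forall fun c =>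
        Measurable.forall fun d => (h1 a b).imp ((h2 k a c).imp ((h2 k b d).imp
          (measurable_const.or (h1 d c))))

theorem rel_meas : MeasurableSet Rel := by
  have h1 : ∀ a b : ℕ, Measurable fun p : Y × ((ℕ → ℚ → ℚ) × (ℕ → ℚ)) => p.1.1 a b = true := by
    intro a b
    have h : Measurable fun p : Y × ((ℕ → ℚ → ℚ) × (ℕ → ℚ)) => p.1.1 a b :=
      (measurable_pi_apply b).comp ((measurable_pi_apply a).comp
        (measurable_fst.comp measurable_fst))
    exact measurableSet_setOfPred.1 (h (measurableSet_singleton true))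
  have h2 : ∀ k a c : ℕ, Measurable fun p : Y × ((ℕ → ℚ → ℚ) × (ℕ → ℚ)) => p.1.2 k a = c := by
    intro k a c
    have h : Measurable fun p : Y × ((ℕ → ℚ → ℚ) × (ℕ → ℚ)) => p.1.2 k a :=
      (measurable_pi_apply a).comp ((measurable_pi_apply k).comp
        (measurable_snd.comp measurable_fst))
    exact measurableSet_setOfPred.1 (h (measurableSet_singleton c))
  have hf : ∀ (k : ℕ) (q : ℚ), Measurable fun p : Y × ((ℕ → ℚ → ℚ) × (ℕ → ℚ)) => p.2.1 k q :=
    fun k q => (measurable_pi_apply q).comp ((measurable_pi_apply k).comp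
      (measurable_fst.comp measurable_snd))
  have he : ∀ m : ℕ, Measurable fun p : Y × ((ℕ → ℚ → ℚ) × (ℕ → ℚ)) => p.2.2 m :=
    fun m => (measurable_pi_apply m).comp (measurable_snd.comp measurable_snd)
  have heq : ∀ g g' : Y × ((ℕ → ℚ → ℚ) × (ℕ → ℚ)) → ℚ, Measurable g → Measurable g' →
      Measurable fun p => g p = g' p := fun g g' hg hg' =>
    measurableSet_setOfPred.1 ((hg.prodMk hg') (MeasurableSet.of_discrete (s := {x : ℚ × ℚ | x.1 = x.2})))
  have hlt : ∀ g g' : Y × ((ℕ → ℚ → ℚ) × (ℕ → ℚ)) → ℚ, Measurable g → Measurable g' →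
      Measurable fun p => g p < g' p := fun g g' hg hg' =>
    measurableSet_setOfPred.1 ((hg.prodMk hg') (MeasurableSet.of_discrete (s := {x : ℚ × ℚ | x.1 < x.2})))
  have hle : ∀ g g' : Y × ((ℕ → ℚ → ℚ) × (ℕ → ℚ)) → ℚ, Measurable g → Measurable g' →
      Measurable fun p => g p ≤ g' p := fun g g' hg hg' =>
    measurableSet_setOfPred.1 ((hg.prodMk hg') (MeasurableSet.of_discrete (s := {x : ℚ × ℚ | x.1 ≤ x.2})))
  refine measurableSet_setOfPred.2 ?_
  refine Measurable.and (Measurable.and ?_ ?_) (Measurable.and ?_ (Measurable.and ?_ ?_))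
  · exact Measurable.forall fun m => Measurable.forall fun n =>
      (heq _ _ (he m) (he n)).imp measurable_const
  · exact Measurable.forall fun q => Measurable.exists fun m =>
      heq _ (fun _ => q) (he m) measurable_const
  · exact Measurable.forall fun m => Measurable.forall fun n =>
      (h1 m n).iff (hlt _ _ (he m) (he n))
  · exact Measurable.forall fun k => Measurable.forall fun m => Measurable.forall fun q =>
      Measurable.forall fun j => (heq _ (fun _ => q) (he m) measurable_const).imp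
        ((h2 k m j).imp (heq _ _ (he j) (hf k q)))
  · refine Measurable.forall fun k => Measurable.or ?_ ?_
    · exact Measurable.forall fun a => Measurable.forall fun b =>
        measurable_const.imp (hle _ _ (hf k a) (hf k b))
    · exact Measurable.forall fun a => Measurable.forall fun b =>
        measurable_const.imp (hle _ _ (hf k b) (hf k a))

theorem rel_mk {y : Y} {f : ℕ → ℚ → ℚ} {e : ℕ → ℚ} (he : Function.Bijective e)
    (h1 : ∀ m n, lt y m n ↔ e m < e n) (h2 : ∀ k m, e (y.2 k m) = f k (e m))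
    (h3 : ∀ k, Monotone (f k) ∨ Antitone (f k)) : (y, (f, e)) ∈ Rel := by
  refine ⟨⟨fun m n h => he.1 h, he.2⟩, h1, ?_, fun k => ?_⟩
  · intro k m q j hq hj
    show e j = f k q
    rw [← hj, ← hq]
    exact h2 k m
  · rcases h3 k with h | h
    · exact Or.inl fun a b hab => h hab
    · exact Or.inr fun a b hab => h hab

theorem rel_dest {y : Y} {f : ℕ → ℚ → ℚ} {e : ℕ → ℚ} (h : (y, (f, e)) ∈ Rel) :
    Function.Bijective e ∧ (∀ m n, lt y m n ↔ e m < e n) ∧ (∀ k m, e (y.2 k m) = f k (e m)) ∧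
      ∀ k, Monotone (f k) ∨ Antitone (f k) := by
  obtain ⟨⟨h1, h2⟩, h3, h4, h5⟩ := h
  refine ⟨⟨fun m n => h1 m n, h2⟩, h3, fun k m => h4 k m _ _ rfl rfl, fun k => ?_⟩
  rcases h5 k with h | h
  · exact Or.inl fun a b hab => h a b hab
  · exact Or.inr fun a b hab => h a b hab

theorem rel_ln {y : Y} {f : ℕ → ℚ → ℚ} {e : ℕ → ℚ} (h : (y, (f, e)) ∈ Rel) :
    Ln y ∧ ∀ k, Mt y (y.2 k) := by
  obtain ⟨he, h1, h2, h3⟩ := rel_dest h
  refine ⟨⟨fun a ha => lt_irrefl _ ((h1 a a).1 ha), fun a b hab => ?_, fun a b c hab hbc => ?_⟩,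
    fun k => ?_⟩
  · rcases lt_or_gt_of_ne (fun h0 => hab (he.1 h0) : e a ≠ e b) with h0 | h0
    · exact Or.inl ((h1 a b).2 h0)
    · exact Or.inr ((h1 b a).2 h0)
  · exact (h1 a c).2 (((h1 a b).1 hab).trans ((h1 b c).1 hbc))
  · rcases h3 k with h | h
    · refine Or.inl fun a b hab => ?_
      have h4 := h ((h1 a b).1 hab).le
      rw [← h2, ← h2] at h4
      rcases h4.eq_or_lt with h5 | h5
      · exact Or.inl (he.1 h5)
      · exact Or.inr ((h1 _ _).2 h5)
    · refine Or.inr fun a b hab => ?_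
      have h4 := h ((h1 a b).1 hab).le
      rw [← h2, ← h2] at h4
      rcases h4.eq_or_lt with h5 | h5
      · exact Or.inl (he.1 h5).symm
      · exact Or.inr ((h1 _ _).2 h5)

theorem dom_eq : {y : Y | ∃ z, (y, z) ∈ Rel} = Dom := by
  ext y
  constructor
  · rintro ⟨⟨f, e⟩, h⟩
    obtain ⟨he, h1, h2, h3⟩ := rel_dest h
    obtain ⟨⟨l1, l2, l3⟩, l4⟩ := rel_ln h
    refine ⟨⟨l1, l2, l3⟩, ⟨fun a b hab => ?_, fun a => ?_, fun a => ?_⟩, fun k => ?_⟩
    · obtain ⟨q, hq1, hq2⟩ := exists_between ((h1 a b).1 hab)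
      obtain ⟨c, hc⟩ := he.2 q
      exact ⟨c, (h1 a c).2 (by rw [hc]; exact hq1), (h1 c b).2 (by rw [hc]; exact hq2)⟩
    · obtain ⟨q, hq⟩ := exists_gt (e a)
      obtain ⟨c, hc⟩ := he.2 q
      exact ⟨c, (h1 a c).2 (by rw [hc]; exact hq)⟩
    · obtain ⟨q, hq⟩ := exists_lt (e a)
      obtain ⟨c, hc⟩ := he.2 q
      exact ⟨c, (h1 c a).2 (by rw [hc]; exact hq)⟩
    · rcases l4 k with h | h
      · refine Or.inl ?_
        rintro a b c d hab rfl rfl
        exact h a b hab
      · refine Or.inr ?_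
        rintro a b c d hab rfl rfl
        exact h a b hab
  · rintro ⟨⟨l1, l2, l3⟩, ⟨d1, d2, d3⟩, l4⟩
    obtain ⟨e, he, h1⟩ := exists_iso (lt y) l1 l2 l3 d1 d2 d3
    have hinv : ∀ q, e ((Equiv.ofBijective e he).symm q) = q := fun q =>
      (Equiv.ofBijective e he).apply_symm_apply q
    refine ⟨(fun k q => e (y.2 k ((Equiv.ofBijective e he).symm q)), e), ?_⟩
    refine rel_mk he h1 (fun k m => ?_) fun k => ?_
    · show e (y.2 k m) = e (y.2 k ((Equiv.ofBijective e he).symm (e m)))
      rw [show (Equiv.ofBijective e he).symm (e m) = m from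
        (Equiv.ofBijective e he).symm_apply_apply m]
    · rcases l4 k with h | h
      · refine Or.inl (monotone_iff_forall_lt.2 fun a b hab => ?_)
        rcases h _ _ _ _ ((h1 ((Equiv.ofBijective e he).symm a)
          ((Equiv.ofBijective e he).symm b)).2 (by rw [hinv, hinv]; exact hab)) rfl rfl with h5 | h5
        · exact le_of_eq (congrArg e h5)
        · exact ((h1 _ _).1 h5).le
      · refine Or.inr (antitone_iff_forall_lt.2 fun a b hab => ?_)
        rcases h _ _ _ _ ((h1 ((Equiv.ofBijective e he).symm a)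
          ((Equiv.ofBijective e he).symm b)).2 (by rw [hinv, hinv]; exact hab)) rfl rfl with h5 | h5
        · exact le_of_eq (congrArg e h5.symm)
        · exact ((h1 _ _).1 h5).le

theorem rel_iso {y y' : Y} {f f' : ℕ → ℚ → ℚ} {e e' : ℕ → ℚ} (h : (y, (f, e)) ∈ Rel)
    (h' : (y', (f', e')) ∈ Rel) : Iso y y' ↔ CjQ f f' := by
  obtain ⟨he, h1, h2, -⟩ := rel_dest h
  obtain ⟨he', h1', h2', -⟩ := rel_dest h'
  constructor
  · rintro ⟨g, hg1, hg2⟩
    refine ⟨⟨((Equiv.ofBijective e he).symm.trans g).trans (Equiv.ofBijective e' he'), ?_⟩,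
      fun k x => ?_⟩
    · intro a b
      obtain ⟨m, rfl⟩ := he.2 a
      obtain ⟨n, rfl⟩ := he.2 b
      show e' (g ((Equiv.ofBijective e he).symm (e m))) ≤
        e' (g ((Equiv.ofBijective e he).symm (e n))) ↔ e m ≤ e n
      rw [show (Equiv.ofBijective e he).symm (e m) = m from
        (Equiv.ofBijective e he).symm_apply_apply m, show (Equiv.ofBijective e he).symm (e n) = n
        from (Equiv.ofBijective e he).symm_apply_apply n, ← not_lt, ← not_lt, ← h1, ← h1']
      unfold lt
      rw [hg1]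
    · obtain ⟨m, rfl⟩ := he.2 x
      show e' (g ((Equiv.ofBijective e he).symm (f k (e m)))) =
        f' k (e' (g ((Equiv.ofBijective e he).symm (e m))))
      rw [← h2, show (Equiv.ofBijective e he).symm (e m) = m from
        (Equiv.ofBijective e he).symm_apply_apply m,
        show (Equiv.ofBijective e he).symm (e (y.2 k m)) = y.2 k m
        from (Equiv.ofBijective e he).symm_apply_apply _, ← hg2, h2']
  · rintro ⟨g, hg⟩
    have hinv : ∀ q, e' ((Equiv.ofBijective e' he').symm q) = q := fun q =>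
      (Equiv.ofBijective e' he').apply_symm_apply q
    refine ⟨((Equiv.ofBijective e he).trans g.toEquiv).trans (Equiv.ofBijective e' he').symm,
      fun m n => ?_, fun k m => ?_⟩
    · rw [Bool.eq_iff_iff]
      refine (h1' _ _).trans (Iff.trans ?_ (h1 m n).symm)
      show e' ((Equiv.ofBijective e' he').symm (g (e m))) <
        e' ((Equiv.ofBijective e' he').symm (g (e n))) ↔ e m < e n
      rw [hinv, hinv]
      exact g.lt_iff_lt
    · apply he'.1
      rw [h2']
      show f' k (e' ((Equiv.ofBijective e' he').symm (g (e m)))) =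
        e' ((Equiv.ofBijective e' he').symm (g (e (y.2 k m))))
      rw [hinv, hinv, h2, hg]

theorem rel_iso' {y y' : Y} {f : ℕ → ℚ → ℚ} {e : ℕ → ℚ} (h : (y, (f, e)) ∈ Rel)
    (hi : Iso y y') : ∃ z, (y', z) ∈ Rel := by
  obtain ⟨he, h1, h2, h3⟩ := rel_dest h
  obtain ⟨g, hg1, hg2⟩ := hi
  refine ⟨(f, fun m => e (g.symm m)), rel_mk (he.comp g.symm.bijective) (fun m n => ?_)
    (fun k m => ?_) h3⟩
  · rw [← h1]
    unfold lt
    rw [← hg1, g.apply_symm_apply, g.apply_symm_apply]
  · show e (g.symm (y'.2 k m)) = f k (e (g.symm m))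
    rw [← h2, ← g.symm_apply_apply (y.2 k (g.symm m)), ← hg2, g.apply_symm_apply]

theorem rel_code {f : ℕ → ℚ → ℚ} (hf : ∀ k, Monotone (f k) ∨ Antitone (f k)) :
    ∃ y e, (y, (f, e)) ∈ Rel := by
  classical
  obtain ⟨g⟩ : Nonempty (ℕ ≃ ℚ) := ⟨(Denumerable.eqv ℚ).symm⟩
  refine ⟨(fun m n => decide (g m < g n), fun k m => g.symm (f k (g m))), g,
    rel_mk g.bijective (fun m n => ?_) (fun k m => ?_) hf⟩
  · unfold lt
    exact decide_eq_true_iff
  · exact g.apply_symm_apply _

theorem pf_RAT (hT : T_TRN) : T_RAT := by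
  intro B hB hmon hinv
  have h := hT ((ℕ → ℚ → ℚ) × (ℕ → ℚ)) (ℕ → ℚ → ℚ) Rel Prod.fst B (fun z z' => CjQ z.1 z'.1)
    rel_meas measurable_fst hB (by rw [dom_eq]; exact dom_meas)
    (fun r hr => rel_ln (f := r.2.1) (e := r.2.2) hr)
    (fun r hr y hy => rel_iso' (f := r.2.1) (e := r.2.2) hr hy)
    (fun r hr r' hr' => rel_iso (f := r.2.1) (e := r.2.2) (f' := r'.2.1) (e' := r'.2.2) hr hr')
    (fun r _ r' _ hE hA => hinv r.2.1 hA r'.2.1 hE)
  rcases h with ⟨F, hF1, hF2, hF3⟩ | ⟨D, hD1, hD2, hD3⟩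
  · exact Or.inl ⟨fun u => (F u).1, measurable_fst.comp hF1, fun u => (hF2 u).2,
      fun u v huv => hF3 u v huv⟩
  · refine Or.inr ⟨Prod.fst '' D, hD1.image _, fun f hf => ?_⟩
    obtain ⟨y, e, hye⟩ := rel_code (hmon f hf)
    obtain ⟨z, hz, hzE⟩ := hD3 _ hye hf
    exact ⟨z.1, ⟨z, hz, rfl⟩, hzE⟩

end Pool.Agent.H86.ALV
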